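import Pool.Agent.Helper3.NilInf

/-!
# MP_d7a7a6_al: dimension of a nilpotent algebra versus generators of its adjoint group, field by field

For every finite field `F` there is one `d` such that nilpotent `F`-algebras whose adjoint group is generated by `d` elements have arbitrarily
large finite dimension. For an infinite field `F` a nilpotent `F`-algebra whose adjoint group is finitely generated is zero.
-/

set_option autoImplicit false

namespace Pool.Agent.Results.MP_d7a7a6_al.FieldDichotomy

/-- `R` is nilpotent: for some `n` all products of `n` elements of `R` are zero (the products are taken in the unitization `F ⊕ R`) -/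
def NilpotentAlg (F R : Type) [Field F] [NonUnitalRing R] [Module F R] [IsScalarTower F R R] [SMulCommClass F R R] : Prop :=
  ∃ n : ℕ, ∀ x : Fin n → R, (List.ofFn (fun i => (Unitization.inr (x i) : Unitization F R))).prod = 0

/-- the adjoint group of `R`, realised as the group of the units `1 + r`, `r ∈ R`, of the unitization, is generated by `d` elements -/
def AdjointGenerated (F R : Type) [Field F] [NonUnitalRing R] [Module F R] [IsScalarTower F R R] [SMulCommClass F R R] (d : ℕ) : Prop :=
  ∃ g : Fin d → (Unitization F R)ˣ,
    (∀ i, ∃ r : R, ((g i : (Unitization F R)ˣ) : Unitization F R) = 1 + Unitization.inr r) ∧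
    ∀ r : R, ∃ u ∈ Subgroup.closure (Set.range g), (u : Unitization F R) = 1 + Unitization.inr r

theorem result (F : Type) [Field F] :
    (Finite F → ∃ d : ℕ, ∀ M : ℕ, ∃ (R : Type) (_ : NonUnitalRing R) (_ : Module F R) (_ : IsScalarTower F R R)
        (_ : SMulCommClass F R R), NilpotentAlg F R ∧ AdjointGenerated F R d ∧ Module.Finite F R ∧ M ≤ Module.finrank F R) ∧
    (Infinite F → ∀ (R : Type) [NonUnitalRing R] [Module F R] [IsScalarTower F R R] [SMulCommClass F R R],
        NilpotentAlg F R → ∀ d : ℕ, AdjointGenerated F R d → Subsingleton R) := by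
  constructor
  · intro hF
    have := Fintype.ofFinite F
    exact ⟨Pool.Agent.Helper3.NilAlgF.d F, fun M => Pool.Agent.Helper3.NilAlgF.final F M⟩
  · rintro hF R _ _ _ _ hn d ⟨g, hg, hgen⟩
    exact Pool.Agent.Helper3.NilInf.inf_case hn d g hg hgen

end Pool.Agent.Results.MP_d7a7a6_al.FieldDichotomy
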